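import Pool.Agent.TH133.Defs

/-!
# Bloch-Beilinson filtrations on the Chow groups of complex projective varieties: definitions
-/

open CategoryTheory AlgebraicGeometry

universe u v w

namespace Pool.Agent.Y148.BS

open Pool.Agent.H914 Pool.Agent.H914.VarClass Pool.Agent.H914.VarClass.Obj Pool.Agent.W492.BB

variable {k : Type u} [Field k] {𝒱 : VarClass k}

section corr

variable (C : TheoryData.{u, v, 0} 𝒱 ℚ) {X Y Z W : 𝒱.Obj}

/-- The external product `a × b` on `X × Y`. -/
noncomputable def cross (a : C.A X) (b : C.A Y) : C.A (X.prod Y) :=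
  C.mul (C.up (fst X Y) a) (C.up (snd X Y) b)

/-- The composition of the correspondences `Γ` from `X` to `Y` and `Δ` from `Y` to `Z`. -/
noncomputable def circ (Γ : C.A (X.prod Y)) (Δ : C.A (Y.prod Z)) : C.A (X.prod Z) :=
  C.down (prodMap (fst X Y) (𝟙 Z))
    (C.mul (C.up (prodMap (snd X Y) (𝟙 Z)) Δ) (C.up (fst (X.prod Y) Z) Γ))

/-- The external product of the correspondences `Γ` from `X` to `Y` and `Δ` from `Z` to `W`. -/
noncomputable def box (Γ : C.A (X.prod Y)) (Δ : C.A (Z.prod W)) :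
    C.A ((X.prod Z).prod (Y.prod W)) :=
  C.mul (C.up (prodMap (fst X Z) (fst Y W)) Γ) (C.up (prodMap (snd X Z) (snd Y W)) Δ)

/-- The transpose of a correspondence. -/
noncomputable def transpose (Γ : C.A (X.prod Y)) : C.A (Y.prod X) :=
  C.up (Obj.lift (snd Y X) (fst Y X)) Γ

/-- The class of the diagonal of `X`. -/
noncomputable def diag (X : 𝒱.Obj) : C.A (X.prod X) := C.down (Obj.lift (𝟙 X) (𝟙 X)) 1

/-- The zero-cycle `o` on `X` has degree one: for all `Y` the push-forward of `o × Y` to `Y` is the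
fundamental class of `Y`. -/
def IsDegreeOne (o : C.A X) : Prop :=
  C.Deg X.dim o ∧ ∀ Y : 𝒱.Obj, C.down (snd X Y) (C.up (fst X Y) o) = 1 ∧
    C.down (fst Y X) (C.up (snd Y X) o) = 1

/-- The class `z` is a linear combination of classes with the property `p`. -/
def IsSum (p : C.A X → Prop) (z : C.A X) : Prop := z ∈ Submodule.span ℚ {c | p c}

/-- The projector `Δ - o × T - T × o` on the motive `h^1(T)` of the curve `T`, with `o` a zero-cycle
of degree one. -/
noncomputable def oddPart (o : C.A X) : C.A (X.prod X) :=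
  diag C X - cross C o 1 - cross C 1 o

/-- The Chow motive of `X` is a direct summand of the Chow motive of a variety in the class `S`. -/
def SummandOf (S : 𝒱.Obj → Prop) (X : 𝒱.Obj) : Prop :=
  ∃ P : 𝒱.Obj, S P ∧ ∃ (f : C.A (X.prod P)) (g : C.A (P.prod X)),
    C.Deg X.dim f ∧ C.Deg P.dim g ∧ circ C f g = diag C X

/-- The property of the Chow groups of varieties over an uncountable algebraically closed field that
a class on `X × T`, `T` a curve, whose restrictions to all the fibres `X × t` vanish, is a sum of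
classes `x × t` (Bloch and Srinivas). The restriction of `z` to the fibre `X × t` is the push-forward
to `X` of the intersection of `z` with `X × t`. -/
def FibreProperty : Prop :=
  ∀ (X T : 𝒱.Obj) (j : ℤ) (z : C.A (X.prod T)), T.dim = 1 → C.Deg j z →
    (∀ t : C.A T, C.Deg 1 t → C.down (fst X T) (C.mul z (C.up (snd X T) t)) = 0) →
    IsSum C (fun c => ∃ (x : C.A X) (t : C.A T), C.Deg (j - 1) x ∧ C.Deg 1 t ∧
      c = cross C x t) z

/-- The analogous property for a pencil of curves on the surface `S` through the point `x`: a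
class on `P × S` whose restrictions to `P × T` vanish, for all the curves `i : T → S` which carry a
zero-cycle `o` of degree one with `i_* o = x` (such as the smooth members of the pencil), is a sum
of push-forwards of classes on products `P × T` with curves `T → S` (the normalisations of the
components of members of the pencil). -/
def PencilProperty {S : 𝒱.Obj} (x : C.A S) : Prop :=
  ∀ (P : 𝒱.Obj) (j : ℤ) (z : C.A (P.prod S)), C.Deg j z →
    (∀ (T : 𝒱.Obj) (i : T ⟶ S) (o : C.A T), T.dim = 1 → IsDegreeOne C o → C.down i o = x →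
      C.up (prodMap (𝟙 P) i) z = 0) →
    IsSum C (fun c => ∃ (T : 𝒱.Obj) (i : T ⟶ S) (w : C.A (P.prod T)), T.dim = 1 ∧
      C.Deg (j - 1) w ∧ c = C.down (prodMap (𝟙 P) i) w) z

/-- The self-correspondence `c` of `S` factors through the motive `h^1(T)` of a curve: it is the
composition of correspondences from `S` to `T` of codimension `a` and from `T` to `S` of codimension
`b` with the projector of `T`. -/
def ThroughCurve (a b : ℤ) {S : 𝒱.Obj} (c : C.A (S.prod S)) : Prop :=
  ∃ (T : 𝒱.Obj) (o : C.A T) (f : C.A (S.prod T)) (g : C.A (T.prod S)), T.dim = 1 ∧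
    IsDegreeOne C o ∧ C.Deg a f ∧ C.Deg b g ∧ c = circ C f (circ C (oddPart C o) g)

end corr

/-- A family of subspaces `N X j` of the Chow groups. -/
abbrev Kernels (C : TheoryData.{u, v, 0} 𝒱 ℚ) := ∀ X : 𝒱.Obj, ℕ → Submodule ℚ (C.A X)

/-- The class `z` on `X` lies in `N X j`. -/
def Kernels.Has {C : TheoryData.{u, v, 0} 𝒱 ℚ} (N : Kernels C) (j : ℕ) {X : 𝒱.Obj} (z : C.A X) :
    Prop := z ∈ N X j

/-- A family of filtrations of the Chow groups: `F X j ν` is `F^ν CH^j(X)`. -/
abbrev Filtrations (C : TheoryData.{u, v, 0} 𝒱 ℚ) := ∀ X : 𝒱.Obj, ℕ → ℕ → Submodule ℚ (C.A X)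

/-- The class `z` on `X` lies in `F^ν CH^j(X)`. -/
def Filtrations.Has {C : TheoryData.{u, v, 0} 𝒱 ℚ} (F : Filtrations C) (j ν : ℕ) {X : 𝒱.Obj}
    (z : C.A X) : Prop := z ∈ F X j ν

section weil

variable {C : TheoryData.{u, v, 0} 𝒱 ℚ} {K : Type w} [Field K] (H : WeilTheoryData.{u, v, w} C K)

/-- The cohomology class of `z` is zero. -/
def IsHomTrivial {X : 𝒱.Obj} (z : C.A X) : Prop := H.cl z = 0

/-- The action of the correspondence `Γ` on the cohomology. -/
noncomputable def actH {X Y : 𝒱.Obj} (Γ : C.A (X.prod Y)) (a : H.A X) : H.A Y :=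
  H.act (H.cl Γ) a

/-- The formal properties of the kernels `N X j ⊆ CH^j(X)` of the Abel-Jacobi maps
`CH^j(X)_hom → J^(2j-1)(X) ⊗ ℚ`:
* they consist of homologically trivial classes and are stable under all correspondences;
* a correspondence acting as zero on `H^(2j-1)(X)` maps `CH^j(X)_hom` to the kernel of the
  Abel-Jacobi map of the target;
* the theorem of Abel: the kernel is zero for divisors. -/
structure IsAbelJacobiKernel (N : Kernels C) : Prop where
  deg : ∀ (X : 𝒱.Obj) (j : ℕ) (z : C.A X), N.Has j z → C.Deg j z ∧ IsHomTrivial H z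
  stable : ∀ (X Y : 𝒱.Obj) (j i : ℕ) (Γ : C.A (X.prod Y)), C.Deg (X.dim + i - j) Γ →
    ∀ z, N.Has j z → N.Has i (C.act Γ z)
  kills : ∀ (X Y : 𝒱.Obj) (j i : ℕ) (Γ : C.A (X.prod Y)), C.Deg (X.dim + i - j) Γ →
    Kills H Γ (2 * j - 1) → ∀ z, C.Deg j z → IsHomTrivial H z → N.Has i (C.act Γ z)
  abel : ∀ (X : 𝒱.Obj) (z : C.A X), N.Has 1 z → z = 0

/-- `F X j ν` is the step `F^ν CH^j(X)` of a Bloch-Beilinson filtration on the Chow groups of the
varieties `X` in the class `S` (conditions 1, 2, 3, 4 of the problem, `N` being the kernels of the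
Abel-Jacobi maps). -/
structure IsBlochBeilinsonOn (N : Kernels C) (S : 𝒱.Obj → Prop) (F : Filtrations C) : Prop where
  anti : ∀ X, S X → ∀ (j ν : ℕ) (z : C.A X), F.Has j (ν + 1) z → F.Has j ν z
  zero : ∀ X, S X → ∀ (j : ℕ) (z : C.A X), F.Has j 0 z ↔ C.Deg j z
  one : ∀ X, S X → ∀ (j : ℕ) (z : C.A X), F.Has j 1 z ↔ C.Deg j z ∧ IsHomTrivial H z
  two : ∀ X, S X → ∀ (j : ℕ) (z : C.A X), F.Has j 2 z ↔ N.Has j z
  top : ∀ X, S X → ∀ (j : ℕ) (z : C.A X), F.Has j (j + 1) z → z = 0
  stable : ∀ X Y, S X → S Y → ∀ (j i ν : ℕ) (Γ : C.A (X.prod Y)), C.Deg (X.dim + i - j) Γ →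
    ∀ z, F.Has j ν z → F.Has i ν (C.act Γ z)
  shift : ∀ X Y, S X → S Y → ∀ (j i ν : ℕ) (Γ : C.A (X.prod Y)), C.Deg (X.dim + i - j) Γ →
    Kills H Γ (2 * j - ν) → ∀ z, F.Has j ν z → F.Has i (ν + 1) (C.act Γ z)

/-- A Chow-Kunneth decomposition of the surface `S`: self-correspondences `π 0, …, π 4` of degree
zero which are mutually orthogonal idempotents with sum the diagonal, and such that `π i` acts as
the identity on `H^i(S)` and as zero on `H^m(S)` for `m ≠ i`. -/
structure IsDecomposition {S : 𝒱.Obj} (π : ℕ → C.A (S.prod S)) : Prop where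
  deg : ∀ i, C.Deg 2 (π i)
  out : ∀ i, 4 < i → π i = 0
  idem : ∀ i, circ C (π i) (π i) = π i
  orth : ∀ i j, i ≠ j → circ C (π i) (π j) = 0
  sum : π 0 + π 1 + π 2 + π 3 + π 4 = diag C S
  act_self : ∀ (i : ℕ) (a : H.A S), H.Deg i a → actH H (π i) a = a
  act_ne : ∀ (i : ℕ) (m : ℤ) (a : H.A S), m ≠ i → H.Deg m a → actH H (π i) a = 0

/-- The correspondence `q` is the projector on the transcendental part `t_2(S)` of the motive of
the surface `S` (Murre; Kahn, Murre, Pedrini): `q` is a self-dual idempotent which acts as zero on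
divisors, and there are a zero-cycle `x` of degree one (a point), with a pencil of curves through
it, and a Chow-Kunneth decomposition `π` of `S` such that `π 0 = x × S`, `π 4 = S × x`, `π 1` and
`π 3` factor through the motives `h^1` of curves, `q` is a direct summand of `π 2`, and `π 2 - q`
is a linear combination of products of divisors. -/
structure IsTranscendental (S : 𝒱.Obj) (q : C.A (S.prod S)) : Prop where
  dim_eq : S.dim = 2
  deg : C.Deg 2 q
  idem : circ C q q = q
  self_dual : transpose C q = q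
  divisor : ∀ D : C.A S, C.Deg 1 D → C.act q D = 0
  decomposition : ∃ (x : C.A S) (π : ℕ → C.A (S.prod S)), IsDegreeOne C x ∧
    PencilProperty C x ∧ IsDecomposition H π ∧ π 0 = cross C x 1 ∧ π 4 = cross C 1 x ∧
    ThroughCurve C 2 1 (π 1) ∧ ThroughCurve C 1 2 (π 3) ∧ circ C (π 2) q = q ∧
    IsSum C (fun c => ∃ D D' : C.A S, C.Deg 1 D ∧ C.Deg 1 D' ∧ c = cross C D D') (π 2 - q)

end weil

/-- A family of surfaces `S` with self-correspondences `q`. -/
abbrev Surfaces (C : TheoryData.{u, v, 0} 𝒱 ℚ) := ∀ S : 𝒱.Obj, C.A (S.prod S) → Prop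

section products

variable {C : TheoryData.{u, v, 0} 𝒱 ℚ} (Q : Surfaces C)

/-- `IsFactor Q m T r`: either `T` is a curve, `m = 1` and `r` is the projector
`Δ - o × T - T × o` on `h^1(T)`, with `o` a zero-cycle of degree one; or `m = 2` and `Q T r`
(`T` is a surface and `r` is the projector on `t_2(T)`). -/
def IsFactor (m : ℕ) (T : 𝒱.Obj) (r : C.A (T.prod T)) : Prop :=
  (m = 1 ∧ T.dim = 1 ∧ ∃ o : C.A T, IsDegreeOne C o ∧ r = oddPart C o) ∨ (m = 2 ∧ Q T r)

/-- `IsPart Q n P p`: the variety `P` is a product of curves `T` and of surfaces `S`, and `p` is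
the external product of the projectors on the motives `h^1(T)` and `t_2(S)` of the factors; the
number `n` is the number of curves plus twice the number of surfaces. So `(P, p)` is the motive
`h^1(T_1) ⊗ ⋯ ⊗ h^1(T_s) ⊗ t_2(S_1) ⊗ ⋯ ⊗ t_2(S_r)`, `n = s + 2r`, the factors in any order. -/
inductive IsPart : ℕ → (P : 𝒱.Obj) → C.A (P.prod P) → Prop
  | factor (n : ℕ) (T : 𝒱.Obj) (r : C.A (T.prod T)) (hr : IsFactor Q n T r) : IsPart n T r
  | prod (n m : ℕ) (P T : 𝒱.Obj) (p : C.A (P.prod P)) (r : C.A (T.prod T)) (hp : IsPart n P p)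
      (hr : IsFactor Q m T r) : IsPart (n + m) (P.prod T) (box C p r)

/-- The variety `P` is a product of curves and of surfaces `S` such that `Q S q` for some `q`. -/
inductive IsProductOfCurvesAndSurfaces : 𝒱.Obj → Prop
  | factor (T : 𝒱.Obj) (hT : T.dim = 1 ∨ ∃ q, Q T q) : IsProductOfCurvesAndSurfaces T
  | prod (P T : 𝒱.Obj) (hP : IsProductOfCurvesAndSurfaces P) (hT : T.dim = 1 ∨ ∃ q, Q T q) :
      IsProductOfCurvesAndSurfaces (P.prod T)

/-- The injectivity of the Abel-Jacobi maps on the cycles of codimension `j` of the motives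
`(P, p) = h^1(T_1) ⊗ ⋯ ⊗ h^1(T_s) ⊗ t_2(S_1) ⊗ ⋯ ⊗ t_2(S_r)` with `s + 2r = 2j - 1`: a class
`z ∈ CH^j(P)` in the kernel of the Abel-Jacobi map such that `p_* z = z` is zero. -/
def InjectiveOnPrimitive (N : Kernels C) (j : ℕ) : Prop :=
  ∀ (P : 𝒱.Obj) (p : C.A (P.prod P)), IsPart Q (2 * j - 1) P p →
    ∀ z : C.A P, N.Has j z → C.act p z = z → z = 0

end products

end Pool.Agent.Y148.BS
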