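import Pool.Agent.Y148.BS.Lang

/-!
# Bloch-Beilinson filtrations on single varieties, chains of self-correspondences: definitions
-/

open CategoryTheory AlgebraicGeometry

universe u v w

namespace Pool.Agent.Y148.BS

open Pool.Agent.H914 Pool.Agent.H914.VarClass Pool.Agent.H914.VarClass.Obj Pool.Agent.W492.BB

variable {k : Type u} [Field k] {𝒱 : VarClass k}

/-- A Bloch-Beilinson filtration on the Chow groups `CH^j(X)`, `j ≤ d`, of the varieties `X` in the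
class `S`: conditions 1, 2, 3, 4 of the problem for `j ≤ d` and for the correspondences from
`CH^j(X)` to `CH^i(Y)` with `j, i ≤ d`. Here `d` is a natural number or infinity. -/
structure IsBlochBeilinsonIn {C : TheoryData.{u, v, 0} 𝒱 ℚ} {K : Type w} [Field K]
    (H : WeilTheoryData.{u, v, w} C K) (d : ℕ∞) (N : Kernels C) (S : 𝒱.Obj → Prop)
    (F : Filtrations C) : Prop where
  anti : ∀ X, S X → ∀ j : ℕ, j ≤ d → ∀ (ν : ℕ) (z : C.A X), F.Has j (ν + 1) z → F.Has j ν z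
  zero : ∀ X, S X → ∀ j : ℕ, j ≤ d → ∀ z : C.A X, F.Has j 0 z ↔ C.Deg j z
  one : ∀ X, S X → ∀ j : ℕ, j ≤ d → ∀ z : C.A X, F.Has j 1 z ↔ C.Deg j z ∧ IsHomTrivial H z
  two : ∀ X, S X → ∀ j : ℕ, j ≤ d → ∀ z : C.A X, F.Has j 2 z ↔ N.Has j z
  top : ∀ X, S X → ∀ j : ℕ, j ≤ d → ∀ z : C.A X, F.Has j (j + 1) z → z = 0
  stable : ∀ X Y, S X → S Y → ∀ j i : ℕ, j ≤ d → i ≤ d → ∀ (ν : ℕ) (Γ : C.A (X.prod Y)),
    C.Deg (X.dim + i - j) Γ → ∀ z, F.Has j ν z → F.Has i ν (C.act Γ z)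
  shift : ∀ X Y, S X → S Y → ∀ j i : ℕ, j ≤ d → i ≤ d → ∀ (ν : ℕ) (Γ : C.A (X.prod Y)),
    C.Deg (X.dim + i - j) Γ → Kills H Γ (2 * j - ν) →
      ∀ z, F.Has j ν z → F.Has i (ν + 1) (C.act Γ z)

/-- The diagonal of `R` has a decomposition `Δ = o × R + ∑ Ψ_i ∘ Φ_i`, where `o` is a zero-cycle of
degree one and the correspondences `Φ_i ∈ CH^(dim R - 1)(R × D_i)` and
`Ψ_i ∈ CH^(dim D_i + 1)(D_i × R)` lower and raise the codimension by one. (By Bloch and Srinivas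
this holds for all varieties whose Chow group of zero-cycles is trivial over all fields, for
example for the rational ones; then `Ψ_i` is the graph of a morphism `D_i → R`.) -/
def HasDecomposition (C : TheoryData.{u, v, 0} 𝒱 ℚ) (R : 𝒱.Obj) : Prop :=
  ∃ o : C.A R, IsDegreeOne C o ∧ IsSum C (fun c => ∃ (D : 𝒱.Obj) (Φ : C.A (R.prod D))
    (Ψ : C.A (D.prod R)), C.Deg (R.dim - 1) Φ ∧ C.Deg (D.dim + 1) Ψ ∧ c = circ C Φ Ψ)
    (diag C R - cross C o 1)

/-- The Tate twist `h(X)(-1)` of the motive of `X` is a direct summand of the motive of `R`. (For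
example if `R` is the blow-up of a projective space in `X`, embedded with codimension at least
two.) -/
def TwistIsSummand (C : TheoryData.{u, v, 0} 𝒱 ℚ) (X R : 𝒱.Obj) : Prop :=
  ∃ (f : C.A (X.prod R)) (g : C.A (R.prod X)), C.Deg (X.dim + 1) f ∧ C.Deg (R.dim - 1) g ∧
    circ C f g = diag C X

/-- `SelfChain H N R J ν w`: the class `w ∈ CH^J(R)` is `(Γ_{ν-1} ∘ ⋯ ∘ Γ_3 ∘ Γ_2)_* w_2`, where `w_2`
is in the kernel `N R J` of the Abel-Jacobi map, and where `Γ_i` is a self-correspondence of `R` of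
degree zero which acts as zero on `H^(2J - i)(R)`. -/
inductive SelfChain {C : TheoryData.{u, v, 0} 𝒱 ℚ} {K : Type w} [Field K]
    (H : WeilTheoryData.{u, v, w} C K) (N : Kernels C) (R : 𝒱.Obj) (J : ℕ) : ℕ → C.A R → Prop
  | start (w : C.A R) (hw : N.Has J w) : SelfChain H N R J 2 w
  | step (ν : ℕ) (w : C.A R) (Γ : C.A (R.prod R)) (h : SelfChain H N R J ν w)
      (hΓ : C.Deg R.dim Γ) (hk : Kills H Γ (2 * J - ν)) : SelfChain H N R J (ν + 1) (C.act Γ w)

end Pool.Agent.Y148.BS
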