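import Pool.Agent.Y148.BS.Lang

/-!
# Bloch-Beilinson filtrations in codimension at most two: definition
-/

open CategoryTheory AlgebraicGeometry

universe u v w

namespace Pool.Agent.Y148.BS

open Pool.Agent.H914 Pool.Agent.H914.VarClass Pool.Agent.H914.VarClass.Obj Pool.Agent.W492.BB

variable {k : Type u} [Field k] {𝒱 : VarClass k} {C : TheoryData.{u, v, 0} 𝒱 ℚ} {K : Type w}
  [Field K] (H : WeilTheoryData.{u, v, w} C K)

/-- A Bloch-Beilinson filtration on the Chow groups `CH^j(X)`, `j ≤ d`, of the varieties `X` in the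
class `S`: conditions 1, 2, 3, 4 of the problem for `j ≤ d` and for the correspondences from
`CH^j(X)` to `CH^i(Y)` with `j, i ≤ d`. -/
structure IsBlochBeilinsonUpTo (d : ℕ) (N : Kernels C) (S : 𝒱.Obj → Prop) (F : Filtrations C) :
    Prop where
  anti : ∀ X, S X → ∀ j ≤ d, ∀ (ν : ℕ) (z : C.A X), F.Has j (ν + 1) z → F.Has j ν z
  zero : ∀ X, S X → ∀ j ≤ d, ∀ z : C.A X, F.Has j 0 z ↔ C.Deg j z
  one : ∀ X, S X → ∀ j ≤ d, ∀ z : C.A X, F.Has j 1 z ↔ C.Deg j z ∧ IsHomTrivial H z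
  two : ∀ X, S X → ∀ j ≤ d, ∀ z : C.A X, F.Has j 2 z ↔ N.Has j z
  top : ∀ X, S X → ∀ j ≤ d, ∀ z : C.A X, F.Has j (j + 1) z → z = 0
  stable : ∀ X Y, S X → S Y → ∀ j ≤ d, ∀ i ≤ d, ∀ (ν : ℕ) (Γ : C.A (X.prod Y)),
    C.Deg (X.dim + i - j) Γ → ∀ z, F.Has j ν z → F.Has i ν (C.act Γ z)
  shift : ∀ X Y, S X → S Y → ∀ j ≤ d, ∀ i ≤ d, ∀ (ν : ℕ) (Γ : C.A (X.prod Y)),
    C.Deg (X.dim + i - j) Γ → Kills H Γ (2 * j - ν) →
      ∀ z, F.Has j ν z → F.Has i (ν + 1) (C.act Γ z)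

end Pool.Agent.Y148.BS
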