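import Pool.Agent.Y148.BS.Lang
import Pool.Agent.Y148.BB.Main

/-!
# Translation of the definitions
-/

open CategoryTheory AlgebraicGeometry

universe u v w

namespace Pool.Agent.Y148.BS

open Pool.Agent.H914 Pool.Agent.H914.VarClass Pool.Agent.H914.VarClass.Obj Pool.Agent.W492.BB
  Pool.Agent.W550.Corr Pool.Agent.TH133 Pool.Agent.Y148

set_option linter.unusedSectionVars false
set_option linter.unusedVariables false

variable {k : Type u} [Field k] {𝒱 : VarClass k}

section chow

variable {C : TheoryData.{u, v, 0} 𝒱 ℚ} {X Y Z W T : 𝒱.Obj}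

lemma cross_eq (a : C.A X) (b : C.A Y) : cross C a b = C.ext a b := rfl
lemma circ_eq (Γ : C.A (X.prod Y)) (Δ : C.A (Y.prod Z)) : circ C Γ Δ = C.comp Γ Δ := rfl
lemma box_eq (Γ : C.A (X.prod Y)) (Δ : C.A (Z.prod W)) : box C Γ Δ = tens C Γ Δ := rfl
lemma transpose_eq (Γ : C.A (X.prod Y)) : transpose C Γ = tp C Γ := rfl
lemma diag_eq (X : 𝒱.Obj) : diag C X = dg C X := rfl
lemma oddPart_eq (o : C.A X) : oddPart C o = BB.oddProj C o := rfl

lemma isDegreeOne_iff (o : C.A X) : IsDegreeOne C o ↔ C.Deg X.dim o ∧ HasDegree C o 1 := by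
  unfold IsDegreeOne HasDegree
  simp only [one_smul]

lemma isDegreeOne_iff' (o : C.A T) (hT : T.dim = 1) :
    IsDegreeOne C o ↔ C.Deg 1 o ∧ HasDegree C o 1 := by
  rw [isDegreeOne_iff, hT]
  norm_num

lemma fibreProperty (h : FibreProperty C) : BB.FibreProperty C :=
  fun X T j z hT hz h' => h X T j z hT hz h'

lemma pencilProperty {S : 𝒱.Obj} {x : C.A S} (h : PencilProperty C x) : BB.PencilProperty C x := by
  intro P j z hz h'
  apply h P j z hz
  intro T i o hT ho hi
  rw [isDegreeOne_iff' o hT] at ho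
  exact h' T i o hT ho.1 ho.2 hi

lemma throughCurve {a b : ℤ} {S : 𝒱.Obj} {c : C.A (S.prod S)} (h : ThroughCurve C a b c) :
    c ∈ Submodule.span ℚ {c | ∃ (T : 𝒱.Obj) (o : C.A T) (f : C.A (S.prod T))
      (g : C.A (T.prod S)), T.dim = 1 ∧ C.Deg 1 o ∧ HasDegree C o 1 ∧ C.Deg a f ∧ C.Deg b g ∧
      c = C.comp f (C.comp (BB.oddProj C o) g)} := by
  obtain ⟨T, o, f, g, hT, ho, hf, hg, rfl⟩ := h
  rw [isDegreeOne_iff' o hT] at ho
  exact Submodule.subset_span ⟨T, o, f, g, hT, ho.1, ho.2, hf, hg, rfl⟩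

variable {K : Type w} [Field K] {H : WeilTheoryData.{u, v, w} C K}

lemma isCK {S : 𝒱.Obj} (hS : S.dim = 2) {π : ℕ → C.A (S.prod S)} (h : IsDecomposition H π) :
    IsCK H S π where
  deg i := by
    rw [hS]
    exact_mod_cast h.deg i
  out i hi := h.out i (by omega)
  idem := h.idem
  orth := h.orth
  sum := by
    rw [hS]
    have e : Finset.range (2 * 2 + 1) = Finset.range 5 := rfl
    rw [e, Finset.sum_range_succ, Finset.sum_range_succ, Finset.sum_range_succ,
      Finset.sum_range_succ, Finset.sum_range_succ, Finset.sum_range_zero, zero_add]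
    exact h.sum
  act_self := h.act_self
  act_ne := h.act_ne

lemma isTranscendental {S : 𝒱.Obj} {q : C.A (S.prod S)} (h : IsTranscendental H S q) :
    BB.IsTranscendental H S q where
  dim_eq := h.dim_eq
  deg := h.deg
  idem := h.idem
  self_dual := h.self_dual
  divisor := h.divisor
  exists_ck := by
    obtain ⟨x, π, hx, hpen, hπ, h0, h4, h1, h3, h2, h22⟩ := h.decomposition
    rw [isDegreeOne_iff, h.dim_eq] at hx
    exact ⟨x, π, by exact_mod_cast hx.1, hx.2, pencilProperty hpen, isCK h.dim_eq hπ, h0, h4, h2,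
      h22, throughCurve h1, throughCurve h3⟩

lemma isAbelJacobiKernel {N : Kernels C} (h : IsAbelJacobiKernel H N) :
    BB.IsAbelJacobiKernel H N where
  deg := h.deg
  stable := h.stable
  kills := h.kills
  abel := h.abel

lemma isFactor_iff {Q : Surfaces C} {m : ℕ} {r : C.A (T.prod T)} :
    IsFactor Q m T r ↔ BB.IsFactor Q m T r := by
  constructor
  · rintro (⟨rfl, hT, o, ho, rfl⟩ | ⟨rfl, h⟩)
    · rw [isDegreeOne_iff' o hT] at ho
      exact BB.IsFactor.curve T o hT ho.1 ho.2
    · exact BB.IsFactor.surface T r h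
  · intro h
    cases h with
    | curve _ o hT ho hd => exact Or.inl ⟨rfl, hT, o, (isDegreeOne_iff' o hT).2 ⟨ho, hd⟩, rfl⟩
    | surface _ _ h => exact Or.inr ⟨rfl, h⟩

lemma isPart_iff {Q : Surfaces C} {n : ℕ} {P : 𝒱.Obj} {p : C.A (P.prod P)} :
    IsPart Q n P p ↔ BB.IsPart Q n P p := by
  constructor
  · intro h
    induction h with
    | factor n T r hr => exact BB.IsPart.factor n T r (isFactor_iff.1 hr)
    | prod n m P T p r hp hr ih => exact BB.IsPart.prod n m P T p r ih (isFactor_iff.1 hr)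
  · intro h
    induction h with
    | factor n T r hr => exact IsPart.factor n T r (isFactor_iff.2 hr)
    | prod n m P T p r hp hr ih => exact IsPart.prod n m P T p r ih (isFactor_iff.2 hr)

lemma isProduct_iff {Q : Surfaces C} {P : 𝒱.Obj} :
    IsProductOfCurvesAndSurfaces Q P ↔ BB.IsProductOfCurvesAndSurfaces Q P := by
  constructor
  · intro h
    induction h with
    | factor T hT => exact BB.IsProductOfCurvesAndSurfaces.factor T hT
    | prod P T hP hT ih => exact BB.IsProductOfCurvesAndSurfaces.prod P T ih hT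
  · intro h
    induction h with
    | factor T hT => exact IsProductOfCurvesAndSurfaces.factor T hT
    | prod P T hP hT ih => exact IsProductOfCurvesAndSurfaces.prod P T ih hT

lemma product_eq (Q : Surfaces C) :
    IsProductOfCurvesAndSurfaces Q = BB.IsProductOfCurvesAndSurfaces Q := by
  funext P
  exact propext isProduct_iff

lemma summandOf_eq (S : 𝒱.Obj → Prop) : SummandOf C S = BB.SummandOf C S := rfl

lemma injectiveOnPrimitive_iff {Q : Surfaces C} {N : Kernels C} {j : ℕ} :
    InjectiveOnPrimitive Q N j ↔ BB.InjectiveOnPrimitive Q N j := by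
  unfold InjectiveOnPrimitive BB.InjectiveOnPrimitive
  simp only [isPart_iff]
  rfl

lemma isBlochBeilinsonOn_iff {N : Kernels C} {S : 𝒱.Obj → Prop} {F : Filtrations C} :
    IsBlochBeilinsonOn H N S F ↔ BB.IsBBIn H (fun _ => True) N S F := by
  constructor
  · intro h
    exact ⟨fun X hX j _ ν z hz => h.anti X hX j ν z hz, fun X hX j _ z => h.zero X hX j z,
      fun X hX j _ z => h.one X hX j z,
      fun X hX j _ => Submodule.ext fun z => h.two X hX j z,
      fun X hX j _ => (Submodule.eq_bot_iff _).2 fun z hz => h.top X hX j z hz,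
      fun X Y hX hY j i _ _ ν Γ hΓ z hz => h.stable X Y hX hY j i ν Γ hΓ z hz,
      fun X Y hX hY j i _ _ ν Γ hΓ hk z hz => h.shift X Y hX hY j i ν Γ hΓ hk z hz⟩
  · intro h
    exact ⟨fun X hX j ν z hz => h.anti X hX j trivial ν hz,
      fun X hX j z => h.zero X hX j trivial z,
      fun X hX j z => h.one X hX j trivial z,
      fun X hX j z => by rw [Filtrations.Has, h.two X hX j trivial]; rfl,
      fun X hX j z hz => by
        rw [Filtrations.Has, h.top X hX j trivial] at hz
        exact (Submodule.mem_bot _).1 hz,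
      fun X Y hX hY j i ν Γ hΓ z hz => h.stable X Y hX hY j i trivial trivial ν Γ hΓ z hz,
      fun X Y hX hY j i ν Γ hΓ hk z hz => h.shift X Y hX hY j i trivial trivial ν Γ hΓ hk z hz⟩

/-- **Bloch-Beilinson filtrations on the varieties generated by curves and surfaces.** -/
theorem curvesAndSurfaces [hC : IsChowProj C] [hH : IsWeilProj H] {N : Kernels C}
    (hN : IsAbelJacobiKernel H N) (hF : FibreProperty C) (Q : Surfaces C)
    (hQ : ∀ (S : 𝒱.Obj) (q : C.A (S.prod S)), Q S q → IsTranscendental H S q) :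
    (∃ F : Filtrations C,
      IsBlochBeilinsonOn H N (SummandOf C (IsProductOfCurvesAndSurfaces Q)) F) ↔
      ∀ j : ℕ, 2 ≤ j → InjectiveOnPrimitive Q N j := by
  have hQ' : BB.AllTranscendental H Q := fun S q h => isTranscendental (hQ S q h)
  rw [product_eq, summandOf_eq]
  constructor
  · rintro ⟨F, hF⟩ j hj
    rw [isBlochBeilinsonOn_iff] at hF
    rw [injectiveOnPrimitive_iff]
    exact hF.injective hQ' (fun X hX => BB.SummandOf.self (H := H) hX) (d := j)
      (fun _ _ => trivial) j hj le_rfl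
  · intro h
    obtain ⟨F, hF⟩ := BB.exists_isBBIn (fibreProperty hF) (isAbelJacobiKernel hN) hQ'
      (J := fun _ => True) (fun j i _ _ => ⟨i + j, by omega, by omega, by omega,
        fun l hl _ => injectiveOnPrimitive_iff.1 (h l hl)⟩)
    exact ⟨F, isBlochBeilinsonOn_iff.2 hF⟩

end chow

end Pool.Agent.Y148.BS
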