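import Pool.Agent.Y148.BS.LangTwo
import Pool.Agent.Y148.BS.Translate

/-!
# Bloch-Beilinson filtrations in codimension at most two
-/

open CategoryTheory AlgebraicGeometry

universe u v w

namespace Pool.Agent.Y148.BS

open Pool.Agent.H914 Pool.Agent.H914.VarClass Pool.Agent.H914.VarClass.Obj Pool.Agent.W492.BB
  Pool.Agent.W550.Corr Pool.Agent.TH133 Pool.Agent.Y148

set_option linter.unusedSectionVars false
set_option linter.unusedVariables false

variable {k : Type u} [Field k] {𝒱 : VarClass k} {C : TheoryData.{u, v, 0} 𝒱 ℚ} {K : Type w}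
  [Field K] {H : WeilTheoryData.{u, v, w} C K}

lemma isBlochBeilinsonUpTo_iff {d : ℕ} {N : Kernels C} {S : 𝒱.Obj → Prop} {F : Filtrations C} :
    IsBlochBeilinsonUpTo H d N S F ↔ BB.IsBBIn H (fun j => j ≤ d) N S F := by
  constructor
  · intro h
    exact ⟨fun X hX j hj ν z hz => h.anti X hX j hj ν z hz, fun X hX j hj z => h.zero X hX j hj z,
      fun X hX j hj z => h.one X hX j hj z,
      fun X hX j hj => Submodule.ext fun z => h.two X hX j hj z,
      fun X hX j hj => (Submodule.eq_bot_iff _).2 fun z hz => h.top X hX j hj z hz,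
      fun X Y hX hY j i hj hi ν Γ hΓ z hz => h.stable X Y hX hY j hj i hi ν Γ hΓ z hz,
      fun X Y hX hY j i hj hi ν Γ hΓ hk z hz => h.shift X Y hX hY j hj i hi ν Γ hΓ hk z hz⟩
  · intro h
    exact ⟨fun X hX j hj ν z hz => h.anti X hX j hj ν hz,
      fun X hX j hj z => h.zero X hX j hj z,
      fun X hX j hj z => h.one X hX j hj z,
      fun X hX j hj z => by rw [Filtrations.Has, h.two X hX j hj]; rfl,
      fun X hX j hj z hz => by
        rw [Filtrations.Has, h.top X hX j hj] at hz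
        exact (Submodule.mem_bot _).1 hz,
      fun X Y hX hY j hj i hi ν Γ hΓ z hz => h.stable X Y hX hY j i hj hi ν Γ hΓ z hz,
      fun X Y hX hY j hj i hi ν Γ hΓ hk z hz => h.shift X Y hX hY j i hj hi ν Γ hΓ hk z hz⟩

/-- Bloch-Beilinson filtrations in codimension at most `d`. -/
theorem upTo [hC : IsChowProj C] [hH : IsWeilProj H] {N : Kernels C}
    (hN : IsAbelJacobiKernel H N) (hF : FibreProperty C) (Q : Surfaces C)
    (hQ : ∀ (S : 𝒱.Obj) (q : C.A (S.prod S)), Q S q → IsTranscendental H S q) (d : ℕ)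
    (hd : 2 ≤ d) :
    ((∀ j, 2 ≤ j → j ≤ 2 * d - 2 → InjectiveOnPrimitive Q N j) → ∃ F : Filtrations C,
      IsBlochBeilinsonUpTo H d N (SummandOf C (IsProductOfCurvesAndSurfaces Q)) F) ∧
    ((∃ F : Filtrations C,
      IsBlochBeilinsonUpTo H d N (SummandOf C (IsProductOfCurvesAndSurfaces Q)) F) →
      ∀ j, 2 ≤ j → j ≤ d → InjectiveOnPrimitive Q N j) := by
  have hQ' : BB.AllTranscendental H Q := fun S q h => isTranscendental (hQ S q h)
  rw [product_eq, summandOf_eq]
  constructor
  · intro h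
    obtain ⟨F, hF⟩ := BB.exists_isBBIn (fibreProperty hF) (isAbelJacobiKernel hN) hQ'
      (J := fun j => j ≤ d) (fun j i hj hi => ⟨2 * d - 2, by omega, by omega, by omega,
        fun l hl hl' => injectiveOnPrimitive_iff.1 (h l hl hl')⟩)
    exact ⟨F, isBlochBeilinsonUpTo_iff.2 hF⟩
  · rintro ⟨F, hF⟩ j hj hjd
    rw [isBlochBeilinsonUpTo_iff] at hF
    rw [injectiveOnPrimitive_iff]
    exact hF.injective hQ' (fun X hX => BB.SummandOf.self (H := H) hX) (d := d)
      (fun _ h => h) j hj hjd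

/-- **The case of codimension at most two.** -/
theorem two [hC : IsChowProj C] [hH : IsWeilProj H] {N : Kernels C}
    (hN : IsAbelJacobiKernel H N) (hF : FibreProperty C) (Q : Surfaces C)
    (hQ : ∀ (S : 𝒱.Obj) (q : C.A (S.prod S)), Q S q → IsTranscendental H S q) :
    [∃ F : Filtrations C,
        IsBlochBeilinsonUpTo H 2 N (SummandOf C (IsProductOfCurvesAndSurfaces Q)) F,
      ∀ X Y : 𝒱.Obj, SummandOf C (IsProductOfCurvesAndSurfaces Q) X →
        SummandOf C (IsProductOfCurvesAndSurfaces Q) Y → ∀ Γ : C.A (X.prod Y), C.Deg X.dim Γ →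
        Kills H Γ 2 → ∀ z : C.A X, N.Has 2 z → C.act Γ z = 0,
      InjectiveOnPrimitive Q N 2].TFAE := by
  have hQ' : BB.AllTranscendental H Q := fun S q h => isTranscendental (hQ S q h)
  obtain ⟨h1, h2⟩ := upTo hN hF Q hQ 2 le_rfl
  tfae_have 1 → 2 := by
    rintro ⟨F, hF⟩ X Y hX hY Γ hΓ hk z hz
    rw [← hF.two X hX 2 le_rfl] at hz
    have h3 := hF.shift X Y hX hY 2 le_rfl 2 le_rfl 2 Γ (by rwa [add_sub_cancel_right])
      (by exact_mod_cast hk) z hz
    exact hF.top Y hY 2 le_rfl _ h3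
  tfae_have 2 → 3 := by
    intro h
    rw [injectiveOnPrimitive_iff]
    intro P p hp z hz hpz
    have hP : SummandOf C (IsProductOfCurvesAndSurfaces Q) P := by
      rw [product_eq, summandOf_eq]
      exact BB.SummandOf.self (H := H) hp.isProduct
    rw [← hpz]
    exact h P P hP hP p (hp.mem hQ') (hp.kills hQ' (by norm_num)) z hz
  tfae_have 3 → 1 := by
    intro h
    apply h1
    intro j hj hj'
    obtain rfl : j = 2 := by omega
    exact h
  tfae_finish

end Pool.Agent.Y148.BS
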